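import Pool.Agent.MWGY.StmtsA

/-! Row FRG of squad MWGY: the form of the instances (adapted from the row MWGQ.FOR of helper86 and
the row MWGN.FOR of helper53). -/

set_option autoImplicit false

namespace Pool.Agent.MWGY.H80

open Pool.Agent.Helper14_MV
open Pool.Agent.Helper2_MV (RR)
open Pool.Agent.MWK (pre)
open Pool.Agent.MWGN (nn Nm WC WT Tau Ns nl sg gh gh_succ)
open Pool.Agent.MWGQ (pw bd kr krl Rs Gn E0 A0 P0)
open Pool.Agent.MWGX (gL gR Ex OX Dl pw_succ pw_zero flat_rep count_pw mem_pw)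

theorem fac (f : ℕ → List ℕ) (l : List ℕ) (c : ℕ) (h : c ∈ l) :
    ∃ A B, l.flatMap f = A ++ (f c ++ B) := by
  obtain ⟨s, t, hl⟩ := List.append_of_mem h
  refine ⟨s.flatMap f, t.flatMap f, ?_⟩
  rw [hl, List.flatMap_append, List.flatMap_cons]

theorem pw_flatMap (f : ℕ → List ℕ) (k : ℕ) (u : List ℕ) :
    (pw k u).flatMap f = pw k (u.flatMap f) := by
  induction k with
  | zero => rfl
  | succ k ih => rw [pw_succ, pw_succ, List.flatMap_append, ih]

theorem one_flatMap (f : ℕ → List ℕ) (c : ℕ) : ([c] : List ℕ).flatMap f = f c := by simp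

theorem gL_flatMap (n c : ℕ) (f : ℕ → List ℕ) (z a b : ℕ) :
    (gL n c [z] [a] [b]).flatMap f = gL n c (f z) (f a) (f b) := by
  simp only [gL, List.flatMap_append, pw_flatMap, one_flatMap]

theorem gR_flatMap (n c : ℕ) (f : ℕ → List ℕ) (z a b : ℕ) :
    (gR n c [z] [a] [b]).flatMap f = gR n c (f z) (f a) (f b) := by
  simp only [gR, List.flatMap_append, pw_flatMap, one_flatMap]

theorem bd_gh (n : ℕ) (f : ℕ → List ℕ) (L C : ℕ → ℕ) (g h : ℕ → List ℕ) : ∀ N : ℕ,
    (∀ i < N, g i = f (L i)) → (∀ i < N, h i = pw (n + 1) (f (C i))) →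
      (bd n (sg L) (sg C) N).flatMap f = gh g h N := by
  intro N
  induction N with
  | zero =>
    intro _ _
    rfl
  | succ N ih =>
    intro h1 h2
    have e : bd n (sg L) (sg C) (N + 1) =
        bd n (sg L) (sg C) N ++ ([L N] ++ pw (n + 1) [C N]) := by
      simp [bd, sg, List.range_succ]
    rw [e, gh_succ, List.flatMap_append,
      ih (fun i hi => h1 i (by omega)) (fun i hi => h2 i (by omega)), h1 N (by omega),
      h2 N (by omega), List.flatMap_append, pw_flatMap]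
    simp

theorem t1m (n m : ℕ) : T1 n m m = M1.L m :: (bd n (sg (M2 m).L) (sg (M2 m).C) (m + 1) ++
    [(M2 m).L (m + 1), M1.L (m + 1)]) := by
  simp [T1]

theorem t2m (m : ℕ) : T2 m m = [(M2 m).L m, (M2 m).L (m + 1)] := by
  simp [T2]

theorem mem_t1 (n : ℕ) (τ : List ℕ) (m : ℕ) (hτ : Tau τ m) (i : ℕ) (hi : i ≤ m + 1) :
    M1.L i ∈ τ.flatMap (fun i => M1.S i :: T1 n m i) := by
  rcases Nat.lt_or_ge m i with h | h
  · have e : i = m + 1 := by omega
    subst e
    refine List.mem_flatMap.2 ⟨m, (hτ.2 m).2 le_rfl, ?_⟩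
    rw [t1m]
    simp
  · refine List.mem_flatMap.2 ⟨i, (hτ.2 i).2 h, ?_⟩
    by_cases e : i = m
    · subst e
      rw [t1m]
      simp
    · simp [T1, e]

theorem mem_t2 (τ : List ℕ) (m : ℕ) (hτ : Tau τ m) (i : ℕ) (hi : i ≤ m + 1) :
    (M2 m).L i ∈ τ.flatMap (fun i => (M2 m).S i :: T2 m i) := by
  rcases Nat.lt_or_ge m i with h | h
  · have e : i = m + 1 := by omega
    subst e
    refine List.mem_flatMap.2 ⟨m, (hτ.2 m).2 le_rfl, ?_⟩
    rw [t2m]
    simp
  · refine List.mem_flatMap.2 ⟨i, (hτ.2 i).2 h, ?_⟩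
    by_cases e : i = m
    · subst e
      rw [t2m]
      simp
    · simp [T2, e]

theorem count_gh (g h : ℕ → List ℕ) (e i : ℕ) : ∀ N : ℕ, i < N →
    (h i).count e ≤ (gh g h N).count e := by
  intro N
  induction N with
  | zero =>
    intro hi
    omega
  | succ N ih =>
    intro hi
    rw [gh_succ, List.count_append, List.count_append]
    rcases Nat.lt_or_ge i N with h1 | h1
    · have := ih h1
      omega
    · have e1 : i = N := by omega
      subst e1
      omega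

/-- the middle block -/
theorem mid (n : ℕ) (hn : 1 ≤ n) (m : ℕ) (f : ℕ → List ℕ) (k1 k2 k3 : ℕ) (h1 : 1 ≤ k1)
    (h2 : 1 ≤ k2) (h3 : 1 ≤ k3) (Z a b : List ℕ) :
    ∃ (U V V' : List ℕ) (g h : ℕ → List ℕ),
      (bd n (sg M1.L) (sg M1.C) m).flatMap f ++ (pw k1 Z ++ (a ++ (pw k2 Z ++ (b ++ pw k3 Z)))) =
        U ++ gh g h (m + 2) ∧
      (bd n (sg M1.L) (sg M1.C) m).flatMap f ++ (pw k1 Z ++ (a ++ (pw k2 Z ++ (b ++ pw k3 Z)))) =
        V ++ (Z ++ (g m ++ V')) ∧
      (∀ i < m, g i = f (M1.L i)) ∧ g m = a ∧ g (m + 1) = b ∧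
      (∀ e ∈ U, 2 ≤ ((bd n (sg M1.L) (sg M1.C) m).flatMap f ++
        (pw k1 Z ++ (a ++ (pw k2 Z ++ (b ++ pw k3 Z))))).count e) ∧
      (∀ i < m + 2, ∀ e ∈ h i, 2 ≤ ((bd n (sg M1.L) (sg M1.C) m).flatMap f ++
        (pw k1 Z ++ (a ++ (pw k2 Z ++ (b ++ pw k3 Z))))).count e) ∧
      (∀ e ∈ h m, e ∈ Z) := by
  obtain ⟨U, hU, hUe⟩ : ∃ U : List ℕ, (U = if m = 0 then pw k1 Z else []) ∧ (∀ e ∈ U, e ∈ Z) := by
    refine ⟨_, rfl, ?_⟩
    intro e he
    by_cases hm : m = 0
    · rw [if_pos hm] at he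
      exact mem_pw he
    · rw [if_neg hm] at he
      exact absurd he List.not_mem_nil
  obtain ⟨g, hg⟩ : ∃ g : ℕ → List ℕ, g = fun i => if i < m then f (M1.L i) else
    if i = m then a else b := ⟨_, rfl⟩
  obtain ⟨h, hh⟩ : ∃ h : ℕ → List ℕ, h = fun i => if i < m then pw (n + 1) (f (M1.C i)) ++
    (if i + 1 = m then pw k1 Z else []) else if i = m then pw k2 Z else pw k3 Z := ⟨_, rfl⟩
  have g1 : ∀ i < m, g i = f (M1.L i) := by
    intro i hi
    simp [hg, hi]
  have g2 : g m = a := by simp [hg]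
  have g3 : g (m + 1) = b := by simp [hg]
  have hh1 : ∀ i < m, h i = pw (n + 1) (f (M1.C i)) ++ (if i + 1 = m then pw k1 Z else []) := by
    intro i hi
    simp [hh, hi]
  have hh2 : h m = pw k2 Z := by simp [hh]
  have hh3 : h (m + 1) = pw k3 Z := by simp [hh]
  have key : (bd n (sg M1.L) (sg M1.C) m).flatMap f ++ pw k1 Z = U ++ gh g h m := by
    rcases Nat.eq_zero_or_pos m with hm | hm
    · subst hm
      rw [hU, if_pos rfl]
      simp [bd, gh]
    · obtain ⟨m', rfl⟩ : ∃ m', m = m' + 1 := ⟨m - 1, by omega⟩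
      rw [hU, if_neg (by omega), List.nil_append, gh_succ, hh1 m' (by omega), if_pos rfl,
        g1 m' (by omega)]
      have e : bd n (sg M1.L) (sg M1.C) (m' + 1) =
          bd n (sg M1.L) (sg M1.C) m' ++ ([M1.L m'] ++ pw (n + 1) [M1.C m']) := by
        simp [bd, sg, List.range_succ]
      rw [e, List.flatMap_append, bd_gh n f M1.L M1.C g h m' (fun i hi => g1 i (by omega))
        (fun i hi => by rw [hh1 i (by omega), if_neg (by omega), List.append_nil]),
        List.flatMap_append, pw_flatMap, one_flatMap, one_flatMap]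
      simp only [List.append_assoc]
  have eG : (bd n (sg M1.L) (sg M1.C) m).flatMap f ++
      (pw k1 Z ++ (a ++ (pw k2 Z ++ (b ++ pw k3 Z)))) = U ++ gh g h (m + 2) := by
    rw [gh_succ, gh_succ, hh2, hh3, g2, g3, ← List.append_assoc, key]
    simp only [List.append_assoc]
  have cZ : ∀ e ∈ Z, 2 ≤ ((bd n (sg M1.L) (sg M1.C) m).flatMap f ++
        (pw k1 Z ++ (a ++ (pw k2 Z ++ (b ++ pw k3 Z))))).count e := by
    intro e he
    have h0 : 1 ≤ Z.count e := List.count_pos_iff.2 he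
    have e1 : 1 * 1 ≤ k1 * Z.count e := Nat.mul_le_mul h1 h0
    have e2 : 1 * 1 ≤ k2 * Z.count e := Nat.mul_le_mul h2 h0
    simp only [List.count_append, count_pw]
    omega
  refine ⟨U, (bd n (sg M1.L) (sg M1.C) m).flatMap f ++ pw (k1 - 1) Z,
    pw k2 Z ++ (b ++ pw k3 Z), g, h, eG, ?_, g1, g2, g3, fun e he => cZ e (hUe e he), ?_, ?_⟩
  · rw [g2]
    have e1 : pw k1 Z = pw (k1 - 1) Z ++ Z := by
      obtain ⟨k, rfl⟩ : ∃ k, k1 = k + 1 := ⟨k1 - 1, by omega⟩
      rw [Nat.add_sub_cancel]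
      unfold pw
      rw [List.replicate_succ', List.flatten_append]
      simp
    rw [e1]
    simp only [List.append_assoc]
  · intro i hi e he
    rcases Nat.lt_or_ge i m with h4 | h4
    · rw [hh1 i h4, List.mem_append] at he
      rcases he with he | he
      · have h5 := count_gh g h e i (m + 2) hi
        have h6 : 1 ≤ (f (M1.C i)).count e := List.count_pos_iff.2 (mem_pw he)
        have h7 : 2 * 1 ≤ (n + 1) * (f (M1.C i)).count e := Nat.mul_le_mul (by omega) h6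
        have h8 : (n + 1) * (f (M1.C i)).count e ≤ (h i).count e := by
          rw [hh1 i h4, List.count_append, count_pw]
          omega
        rw [eG, List.count_append]
        omega
      · split_ifs at he with h5
        · exact cZ e (mem_pw he)
        · exact absurd he List.not_mem_nil
    · rcases Nat.lt_or_ge m i with h5 | h5
      · have e1 : i = m + 1 := by omega
        subst e1
        rw [hh3] at he
        exact cZ e (mem_pw he)
      · have e1 : i = m := by omega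
        subst e1
        rw [hh2] at he
        exact cZ e (mem_pw he)
  · intro e he
    rw [hh2] at he
    exact mem_pw he

/-- the first part -/
theorem frg1 (n : ℕ) (hn : 1 ≤ n) (τ : List ℕ) (m : ℕ) (hτ : Tau τ m) (f : ℕ → List ℕ)
    (o' : Bool) : ∃ (G U V V' H : List ℕ) (g h : ℕ → List ℕ),
    G = U ++ gh g h (m + 2) ∧ G = V ++ (f 6 ++ (g m ++ V')) ∧
    (∀ i < m, g i = f (M1.L i)) ∧
    g m = (if o' then f (M1.L m) else f (M1.L (m + 1))) ∧
    g (m + 1) = (if o' then f (M1.L (m + 1)) else f (M1.L m)) ∧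
    (∀ e ∈ U, 2 ≤ G.count e) ∧ (∀ i < m + 2, ∀ e ∈ h i, 2 ≤ G.count e) ∧ (∀ e ∈ h m, e ∈ f 6) ∧
    (∀ o : Bool, (wg n τ m o o').flatMap f =
      (if o then gL n 1 (f 5) (f 0) (f 1) else gR n 1 (f 5) (f 0) (f 1)) ++
        (f 2 ++ (f 0 ++ (G ++ (f 1 ++ H))))) ∧
    (∀ i ≤ m + 1, ∃ H1 H2, H = H1 ++ (f (M1.L i) ++ H2)) ∧
    (∃ H1 H2 H3, H = H1 ++ (f (M1.L m) ++ (H2 ++ (f (M1.L (m + 1)) ++ H3)))) := by
  obtain ⟨G, hG, U, V, V', g, h, m1, m2, m3, m4, m5, m6, m7, m8⟩ : ∃ G : List ℕ,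
      (G = (bd n (sg M1.L) (sg M1.C) m).flatMap f ++
        (if o' then gL n 1 (f 6) (f (M1.L m)) (f (M1.L (m + 1))) else
          gR n 1 (f 6) (f (M1.L m)) (f (M1.L (m + 1))))) ∧
      ∃ (U V V' : List ℕ) (g h : ℕ → List ℕ), G = U ++ gh g h (m + 2) ∧
        G = V ++ (f 6 ++ (g m ++ V')) ∧ (∀ i < m, g i = f (M1.L i)) ∧
        g m = (if o' then f (M1.L m) else f (M1.L (m + 1))) ∧
        g (m + 1) = (if o' then f (M1.L (m + 1)) else f (M1.L m)) ∧
        (∀ e ∈ U, 2 ≤ G.count e) ∧ (∀ i < m + 2, ∀ e ∈ h i, 2 ≤ G.count e) ∧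
        (∀ e ∈ h m, e ∈ f 6) := by
    refine ⟨_, rfl, ?_⟩
    cases o' with
    | true =>
      simp only [if_true, gL]
      exact mid n hn m f n (n + 1) n (by omega) (by omega) (by omega) (f 6) (f (M1.L m))
        (f (M1.L (m + 1)))
    | false =>
      simp only [if_false, Bool.false_eq_true, gR]
      exact mid n hn m f (n + 1) (n + (n - 1) * 1) (n + 1) (by omega) (by omega) (by omega) (f 6)
        (f (M1.L (m + 1))) (f (M1.L m))
  obtain ⟨τ1, τ2, ht⟩ := List.append_of_mem ((hτ.2 m).2 le_rfl)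
  refine ⟨G, U, V, V', f 3 ++ ((τ.flatMap (fun i => M1.S i :: T1 n m i)).flatMap f ++ (f 4 ++
    (τ.flatMap (fun i => (M2 m).S i :: T2 m i)).flatMap f)), g, h, m1, m2, m3, m4, m5, m6, m7, m8,
    ?_, ?_, ?_⟩
  · intro o
    rw [hG, wg]
    cases o <;> cases o' <;>
      simp only [List.flatMap_append, List.flatMap_cons, List.append_assoc, if_true, if_false,
        Bool.false_eq_true, gL_flatMap, gR_flatMap]
  · intro i hi
    obtain ⟨A, B, hAB⟩ := fac f _ _ (mem_t1 n τ m hτ i hi)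
    refine ⟨f 3 ++ A, B ++ (f 4 ++
      (τ.flatMap (fun i => (M2 m).S i :: T2 m i)).flatMap f), ?_⟩
    rw [hAB]
    simp only [List.append_assoc]
  · refine ⟨f 3 ++ ((τ1.flatMap (fun i => M1.S i :: T1 n m i)).flatMap f ++ f (M1.S m)),
      (bd n (sg (M2 m).L) (sg (M2 m).C) (m + 1)).flatMap f ++ f ((M2 m).L (m + 1)),
      (τ2.flatMap (fun i => M1.S i :: T1 n m i)).flatMap f ++ (f 4 ++
      (τ.flatMap (fun i => (M2 m).S i :: T2 m i)).flatMap f), ?_⟩
    have e : τ.flatMap (fun i => M1.S i :: T1 n m i) = τ1.flatMap (fun i => M1.S i :: T1 n m i) ++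
        (M1.S m :: M1.L m :: (bd n (sg (M2 m).L) (sg (M2 m).C) (m + 1) ++
          ((M2 m).L (m + 1) :: M1.L (m + 1) :: τ2.flatMap (fun i => M1.S i :: T1 n m i)))) := by
      rw [ht, List.flatMap_append, List.flatMap_cons, t1m]
      simp
    rw [e]
    simp only [List.flatMap_append, List.flatMap_cons, List.append_assoc]

/-- the second part -/
theorem frg2 (n : ℕ) (τ : List ℕ) (m : ℕ) (hτ : Tau τ m) (f : ℕ → List ℕ) (o : Bool) :
    ∃ P F H : List ℕ,
    (∀ o' : Bool, (wg n τ m o o').flatMap f = P ++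
      ((if o' then gL n 1 (f 6) (f (M1.L m)) (f (M1.L (m + 1))) else
        gR n 1 (f 6) (f (M1.L m)) (f (M1.L (m + 1)))) ++ (F ++ (f (M1.L m) ++
      (gh (fun i => f ((M2 m).L i)) (fun i => if i < m + 1 then pw (n + 1) (f ((M2 m).C i))
        else []) (m + 2) ++ (f (M1.L (m + 1)) ++ H)))))) ∧
    (∀ i ≤ m + 1, ∃ H1 H2, H = H1 ++ (f ((M2 m).L i) ++ H2)) ∧
    (∃ H1 H2, H = H1 ++ (f ((M2 m).L m) ++ (f ((M2 m).L (m + 1)) ++ H2))) := by
  obtain ⟨τ1, τ2, ht⟩ := List.append_of_mem ((hτ.2 m).2 le_rfl)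
  refine ⟨(if o then gL n 1 (f 5) (f 0) (f 1) else gR n 1 (f 5) (f 0) (f 1)) ++ (f 2 ++ (f 0 ++
    (bd n (sg M1.L) (sg M1.C) m).flatMap f)),
    f 1 ++ (f 3 ++ ((τ1.flatMap (fun i => M1.S i :: T1 n m i)).flatMap f ++ f (M1.S m))),
    (τ2.flatMap (fun i => M1.S i :: T1 n m i)).flatMap f ++ (f 4 ++
      (τ.flatMap (fun i => (M2 m).S i :: T2 m i)).flatMap f), ?_, ?_, ?_⟩
  · intro o'
    have e : τ.flatMap (fun i => M1.S i :: T1 n m i) = τ1.flatMap (fun i => M1.S i :: T1 n m i) ++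
        (M1.S m :: M1.L m :: (bd n (sg (M2 m).L) (sg (M2 m).C) (m + 1) ++
          ((M2 m).L (m + 1) :: M1.L (m + 1) :: τ2.flatMap (fun i => M1.S i :: T1 n m i)))) := by
      rw [ht, List.flatMap_append, List.flatMap_cons, t1m]
      simp
    rw [gh_succ, ← bd_gh n f (M2 m).L (M2 m).C (fun i => f ((M2 m).L i))
        (fun i => if i < m + 1 then pw (n + 1) (f ((M2 m).C i)) else []) (m + 1)
        (fun i hi => rfl) (fun i hi => by simp [hi])]
    rw [wg, e]
    cases o <;> cases o' <;>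
      simp only [List.flatMap_append, List.flatMap_cons, List.flatMap_nil, List.append_assoc,
        List.append_nil, if_true, if_false, Bool.false_eq_true, lt_irrefl, gL_flatMap, gR_flatMap]
  · intro i hi
    obtain ⟨A, B, hAB⟩ := fac f _ _ (mem_t2 τ m hτ i hi)
    refine ⟨(τ2.flatMap (fun i => M1.S i :: T1 n m i)).flatMap f ++ (f 4 ++ A), B, ?_⟩
    rw [hAB]
    simp only [List.append_assoc]
  · refine ⟨(τ2.flatMap (fun i => M1.S i :: T1 n m i)).flatMap f ++ (f 4 ++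
      ((τ1.flatMap (fun i => (M2 m).S i :: T2 m i)).flatMap f ++ f ((M2 m).S m))),
      (τ2.flatMap (fun i => (M2 m).S i :: T2 m i)).flatMap f, ?_⟩
    have e : τ.flatMap (fun i => (M2 m).S i :: T2 m i) =
        τ1.flatMap (fun i => (M2 m).S i :: T2 m i) ++
        ((M2 m).S m :: (M2 m).L m :: (M2 m).L (m + 1) ::
          τ2.flatMap (fun i => (M2 m).S i :: T2 m i)) := by
      rw [ht, List.flatMap_append, List.flatMap_cons, t2m]
      simp
    rw [e]
    simp only [List.flatMap_append, List.flatMap_cons, List.append_assoc]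

theorem frg : FrgStmt := by
  intro n hn τ m hτ f
  exact ⟨fun o' => frg1 n hn τ m hτ f o', fun o => frg2 n τ m hτ f o⟩

end Pool.Agent.MWGY.H80
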